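import Mathlib
import Pool.Agent.H242R3.ES.StmtsG

/-!
# PROJECT H242-ES, task P7
-/

set_option autoImplicit false

open Finset

namespace Pool.Agent.H760R3.ES

open Pool.Agent.H242R3.ES

lemma B_add_left {D : ℕ} (x y z : LV D) : B (x + y) z = B x z + B y z := by
  unfold B
  have : (∑ i : Fin D, (x + y) (some i) * z (some i)) =
      (∑ i : Fin D, x (some i) * z (some i)) + ∑ i : Fin D, y (some i) * z (some i) := by
    rw [← Finset.sum_add_distrib]
    exact Finset.sum_congr rfl (fun i _ => by simp only [Pi.add_apply]; ring)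
  rw [this]
  simp only [Pi.add_apply]
  ring

lemma B_smul_left {D : ℕ} (c : ℝ) (x z : LV D) : B (c • x) z = c * B x z := by
  unfold B
  have : (∑ i : Fin D, (c • x) (some i) * z (some i)) =
      c * ∑ i : Fin D, x (some i) * z (some i) := by
    rw [Finset.mul_sum]
    exact Finset.sum_congr rfl (fun i _ => by simp only [Pi.smul_apply, smul_eq_mul]; ring)
  rw [this]
  simp only [Pi.smul_apply, smul_eq_mul]
  ring

lemma B_comm {D : ℕ} (x y : LV D) : B x y = B y x := by
  unfold B
  rw [Finset.sum_congr rfl (fun i _ => mul_comm (x (some i)) (y (some i)))]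
  ring

lemma B_add_right {D : ℕ} (x y z : LV D) : B x (y + z) = B x y + B x z := by
  rw [B_comm, B_add_left, B_comm y, B_comm z]

/-- the linear functional `x ↦ B x X` -/
noncomputable def phi {D : ℕ} (X : LV D) : LV D →ₗ[ℝ] ℝ where
  toFun x := B x X
  map_add' x y := B_add_left x y X
  map_smul' c x := by simpa using B_smul_left c x X

lemma phi_apply {D : ℕ} (X x : LV D) : phi X x = B x X := rfl

theorem t : TaskP7 := by
  intro hP hG D ι _ V hV i j k hij hF hki hkj
  have hij' : B (V i) (V j) = -1 := hV.edge i j hij hF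
  have hi0 : phi (V i + V j) (V i) = 0 := by
    rw [phi_apply, B_add_right, hV.norm i, hij']; norm_num
  have hj0 : phi (V i + V j) (V j) = 0 := by
    rw [phi_apply, B_add_right, hV.norm j, B_comm, hij']; norm_num
  obtain ⟨y, a, ha, hn, hk⟩ := hG ι (LV D) V hV.vert i Set.univ
    ⟨0, fun _ => le_rfl, fun _ => ⟨fun _ => rfl, fun _ => Set.mem_univ _⟩⟩ (Set.mem_univ _) k
    (Set.mem_univ _)
  have hl : ∀ l, a l ≠ 0 → l ≠ j → phi (V i + V j) (V l) < 0 := by
    intro l hal hlj
    obtain ⟨-, hli, hFl⟩ := hn l hal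
    have h1 : B (V i) (V l) = -1 := hV.edge i l (Ne.symm hli) hFl
    have h2 : B (V l) (V j) < 1 := hP D ι V hV i l j hli (Ne.symm hij) hlj hFl hF
    rw [phi_apply, B_add_right, B_comm (V l) (V i), h1]
    linarith
  have hval : phi (V i + V j) (V k) = ∑ l, a l * phi (V i + V j) (V l) := by
    conv_lhs => rw [hk]
    rw [map_add, map_smul, hi0, map_sum]
    simp
  have hterm : ∀ l ∈ (Finset.univ : Finset ι), a l * phi (V i + V j) (V l) ≤ 0 := by
    intro l _
    by_cases hal : a l = 0
    · rw [hal, zero_mul]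
    · by_cases hlj : l = j
      · rw [hlj, hj0, mul_zero]
      · exact mul_nonpos_of_nonneg_of_nonpos (ha l) (hl l hal hlj).le
  have hle : phi (V i + V j) (V k) ≤ 0 := by
    rw [hval]; exact Finset.sum_nonpos hterm
  rw [← phi_apply]
  rcases lt_or_eq_of_le hle with h | h
  · exact h
  exfalso
  rw [hval] at h
  have hz := (Finset.sum_eq_zero_iff_of_nonpos hterm).1 h
  have ha0 : ∀ l, l ≠ j → a l = 0 := by
    intro l hlj
    by_contra hal
    have h1 := hz l (Finset.mem_univ _)
    rcases mul_eq_zero.1 h1 with h2 | h2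
    · exact hal h2
    · exact absurd h2 (ne_of_lt (hl l hal hlj))
  have hk' : V k = y • V i + a j • V j := by
    rw [hk]
    congr 1
    rw [Finset.sum_eq_single j]
    · intro l _ hlj
      rw [ha0 l hlj, zero_smul]
    · intro hj
      exact absurd (Finset.mem_univ j) hj
  obtain ⟨f, hf1, hf2⟩ := hF
  have hfi : f (V i) = 0 := (hf2 i).1 (by simp)
  have hfj : f (V j) = 0 := (hf2 j).1 (by simp)
  have hfk : f (V k) = 0 := by
    rw [hk', map_add, map_smul, map_smul, hfi, hfj]; simp
  have hmem := (hf2 k).2 hfk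
  rcases hmem with h1 | h1
  · exact hki h1
  · exact hkj h1

end Pool.Agent.H760R3.ES
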